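import Pool.Agent.ZFM.SpaceY5

/-! # A Baire set of a realcompact space that is not realcompact, in a model of `ZF + ¬ CMC` -/

namespace Pool.Agent.Results.MP_f2f7cf_lc.BaireNotRealcompact

open Pool.Agent.ZFM

/-- There is a (countable, well-founded) model `M` of `ZF` in which countable multiple choice fails,
and in it a realcompact space `(X, T)` and a Baire set `B` of `(X, T)` such that `B` with the
subspace topology `TB` is not realcompact. -/
theorem result : ∃ (M : Type) (_ : Membership M M) (ℛ : RealLine M),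
    IsZF M ∧ ¬ CMC M ∧ Countable M ∧ WellFounded (fun a b : M => a ∈ b) ∧
    ∃ X T B TB : M, IsTop X T ∧ ℛ.Realcompact X T ∧ IsSub B X ∧ ℛ.IsBaire X T B ∧
      IsSubspaceTop T B TB ∧ ¬ ℛ.Realcompact B TB := by
  obtain ⟨C⟩ := exists_cohenModel RQ
  exact ⟨C.N, C.mem, C.realLine, C.zf, C.not_CMC, C.countable, C.wf, C.Y, C.TY C.Y, C.B, C.TY C.B,
    C.isTop_TY (fun _ h => h), C.realcompact_Y, C.B_sub, C.isBaire_B,
    C.isSubspaceTop_TY (fun _ h => h) C.B_sub, C.not_realcompact_B⟩

end Pool.Agent.Results.MP_f2f7cf_lc.BaireNotRealcompact
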